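import Pool.Agent.H91.MultSeq

set_option autoImplicit false

open Polynomial H91.MultSeq in
theorem Pool.Agent.Results.MP_5f9057_an.Q1Yes.result :
    ∃ Q : ℕ → ℕ → ℝ[X], (∀ j k, (Q j k).degree = k) ∧
    (∀ i j, 1 ≤ i → 1 ≤ j → i ≠ j → MS (Q i) ≠ MS (Q j)) ∧
    (⋃ j ∈ {j : ℕ | 1 ≤ j}, MS (Q j)) ⊂ MS (fun k => X ^ k) :=
  ⟨P, main⟩
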