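import Pool.Agent.H91.MultSeq

set_option autoImplicit false

open Polynomial H91.MultSeq in
theorem Pool.Agent.Results.MP_5f9057_an.Q2Yes.result :
    ∀ i j : ℕ, 1 ≤ i → 1 ≤ j → i ≠ j → MS (P i) ≠ MS (P j) :=
  main.2.1
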